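import Pool.Agent.helper13.RF.SpecU

/-!
# Row rf:UPI: the prime element of `OO` below a prime of the mirror field
-/

set_option autoImplicit false

namespace Pool.Agent.RF

open NumberField

/-- powers -/
theorem UPI_pow (F : Type) [Field F] [NumberField F] (P : Ideal (𝓞 F)) (hP : P.IsPrime)
    (hmul : ∀ x y : 𝓞 F, x ≠ 0 → y ≠ 0 → vv P (x * y) = vv P x + vv P y)
    (hpos : ∀ x : 𝓞 F, x ≠ 0 → (0 < vv P x ↔ x ∈ P)) (a : 𝓞 F) (ha : a ≠ 0) (m : ℕ) :
    vv P (a ^ m) = m * vv P a := by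
  induction m with
  | zero =>
    rw [pow_zero, Nat.zero_mul]
    by_contra h
    have h1 : 0 < vv P (1 : 𝓞 F) := Nat.pos_of_ne_zero h
    exact hP.ne_top ((Ideal.eq_top_iff_one P).2 ((hpos 1 one_ne_zero).1 h1))
  | succ m ih =>
    rw [pow_succ, hmul _ _ (pow_ne_zero m ha) ha, ih]
    ring

/-- **UPI** -/
theorem UPI (hWEU : WEU_stmt) (h1 : VVM_stmt) : UPI_stmt := by
  intro D₀ F _ _ C P hP hP0
  obtain ⟨hmul, hpos, _⟩ := h1 F P hP hP0
  haveI : IsDomain OO := hWEU.1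
  haveI : IsPrincipalIdealRing OO := hWEU.2
  haveI := hP
  have hinj : ∀ a : OO, C.ι a = 0 → a = 0 := by
    intro a ha
    exact (C.ind a 0 (by rw [ha, map_zero, zero_mul, add_zero])).1
  have hQ : (P.comap C.ι).IsPrime := Ideal.IsPrime.comap C.ι
  have hQ0 : P.comap C.ι ≠ ⊥ := by
    intro h
    have hN : ((Ideal.absNorm P : ℕ) : 𝓞 F) ∈ P := Ideal.absNorm_mem P
    have hN0 : Ideal.absNorm P ≠ 0 := by
      intro h0
      exact hP0 (Ideal.absNorm_eq_zero_iff.1 h0)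
    have h2 : ((Ideal.absNorm P : ℕ) : OO) ∈ P.comap C.ι := by
      rw [Ideal.mem_comap, map_natCast]
      exact hN
    rw [h, Ideal.mem_bot] at h2
    have h3 : ((Ideal.absNorm P : ℕ) : 𝓞 F) = 0 := by
      rw [← map_natCast C.ι, h2, map_zero]
    exact hN0 (Nat.cast_eq_zero.1 h3)
  obtain ⟨π, hπ⟩ := (IsPrincipalIdealRing.principal (P.comap C.ι)).principal
  have hπ' : P.comap C.ι = Ideal.span {π} := hπ
  have hπ0 : π ≠ 0 := by
    intro h
    apply hQ0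
    rw [hπ', h]
    exact Ideal.span_singleton_eq_bot.2 rfl
  have hmem : ∀ x : OO, C.ι x ∈ P ↔ π ∣ x := by
    intro x
    rw [← Ideal.mem_comap, hπ', Ideal.mem_span_singleton]
  have hιπ : C.ι π ≠ 0 := fun h => hπ0 (hinj π h)
  refine ⟨π, ?_, ?_, hmem, ?_⟩
  · rw [hπ'] at hQ
    exact (Ideal.span_singleton_prime hπ0).1 hQ
  · exact (hpos _ hιπ).2 ((hmem π).2 dvd_rfl)
  · intro x m hm hm1
    obtain ⟨y, hy⟩ := hm
    have hy' : ¬ π ∣ y := by
      intro ⟨z, hz⟩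
      apply hm1
      rw [hy, hz]
      exact ⟨z, by ring⟩
    have hy0 : y ≠ 0 := by
      intro h
      exact hy' (h ▸ dvd_zero π)
    have hιy : C.ι y ≠ 0 := fun h => hy0 (hinj y h)
    have hvy : vv P (C.ι y) = 0 := by
      by_contra h
      exact hy' ((hmem y).1 ((hpos _ hιy).1 (Nat.pos_of_ne_zero h)))
    rw [hy, map_mul, map_pow, hmul _ _ (pow_ne_zero m hιπ) hιy, hvy, add_zero,
      UPI_pow F P hP hmul hpos _ hιπ]

end Pool.Agent.RF
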