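import Pool.Agent.helper13.RF.SpecT

/-!
# Row rf:TLM (MP_16912e_nt, project RF, stage 2): `M` and `X` at a prime above the content
-/

set_option autoImplicit false

namespace Pool.Agent.RF

open NumberField

theorem TLM_inj {D : ℤ} {F : Type} [Field F] [NumberField F] (C : Ctx D F) (z : OO) (hz : z ≠ 0) : C.ι z ≠ 0 := by
  intro h
  exact hz (C.ind z 0 (by rw [h, map_zero]; ring)).1

theorem TLM_n0 (p : Pt) (hp : IsPt p) : p.n ≠ 0 := by
  intro h
  obtain ⟨a, ha⟩ := hp.n1
  have h2 : (25 : OO) = ((25 : ℤ) : OO) := by norm_num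
  rw [h, h2] at ha
  have h1 := congrArg QuadraticAlgebra.re ha
  simp only [QuadraticAlgebra.re_sub, QuadraticAlgebra.re_zero, QuadraticAlgebra.re_one, QuadraticAlgebra.re_mul,
    QuadraticAlgebra.re_intCast, QuadraticAlgebra.im_intCast] at h1
  have h3 : (0 : ℤ) - 1 = 25 * a.re + 1 * 0 * a.im := h1
  omega

theorem TLM_dec (p : Pt) (hp : IsPt p) : ∃ n₁ : OO, p.n = (ct p : OO) * n₁ ∧ Int.gcd n₁.re n₁.im = 1 ∧ 0 < ct p := by
  have h0 : 0 < Int.gcd p.n.re p.n.im := by
    rw [Int.gcd_pos_iff]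
    by_contra hne
    push Not at hne
    exact TLM_n0 p hp (QuadraticAlgebra.ext hne.1 hne.2)
  obtain ⟨a, b, hab, ha, hb⟩ := Int.exists_gcd_one h0
  refine ⟨⟨a, b⟩, ?_, hab, h0⟩
  apply QuadraticAlgebra.ext
  · unfold ct
    simp only [QuadraticAlgebra.re_mul, QuadraticAlgebra.re_natCast, QuadraticAlgebra.im_natCast]
    rw [mul_comm] at ha
    linarith
  · unfold ct
    simp only [QuadraticAlgebra.im_mul, QuadraticAlgebra.re_natCast, QuadraticAlgebra.im_natCast]
    rw [mul_comm] at hb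
    linarith

theorem TLM_r5 : r5 * r5 = (5 : OO) := by
  ext <;> rfl

theorem TLM_ph : ph * (ph - 1) = (1 : OO) := by
  ext <;> rfl

theorem TLM_sub (n : OO) : n - star n = (n.im : OO) * r5 := by
  ext <;> simp [r5] <;> ring

theorem TLM_re (n : OO) : ((n.re : ℤ) : OO) = n - (n.im : OO) * ph := by
  ext <;> simp [ph]

theorem TLM (h1 : TRA_stmt) (h2 : VVM_stmt) (h3 : TVA_stmt) : TLM_stmt := by
  intro D₀ F _ _ C p hp P hP hP0 hgP
  obtain ⟨t1, t2, -⟩ := h1 p hp
  obtain ⟨v1, v2, -⟩ := h2 F P hP hP0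
  obtain ⟨-, -, v3⟩ := h3 F P hP hP0
  have one : (1 : 𝓞 F) ∉ P := fun h => hP.ne_top ((Ideal.eq_top_iff_one P).2 h)
  have nP : ∀ x : 𝓞 F, x ∉ P → x ≠ 0 ∧ vv P x = 0 := by
    intro x hx
    have hx0 : x ≠ 0 := fun h => hx (h ▸ P.zero_mem)
    refine ⟨hx0, ?_⟩
    by_contra hne
    exact hx ((v2 x hx0).1 (Nat.pos_of_ne_zero hne))
  have iP : ∀ x : 𝓞 F, 0 < vv P x → x ≠ 0 → x ∈ P := fun x h hx => (v2 x hx).1 h
  obtain ⟨n₁, hn₁, hcop, hg0⟩ := TLM_dec p hp
  have hn₁s : star p.n = (ct p : OO) * star n₁ := by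
    rw [hn₁, star_mul', star_natCast]
  have hn1z : n₁ ≠ 0 := by
    rintro rfl
    simp at hcop
  have hn1z' : star n₁ ≠ 0 := by
    intro h
    exact hn1z (by rw [← star_star n₁, h, star_zero])
  set g : 𝓞 F := ((ct p : ℕ) : 𝓞 F) with hg
  have hg1 : g ≠ 0 := by
    rw [hg]
    exact_mod_cast hg0.ne'
  set a : 𝓞 F := C.ι n₁ with ha
  set a' : 𝓞 F := C.ι (star n₁) with ha'
  have a0 : a ≠ 0 := TLM_inj C _ hn1z
  have a0' : a' ≠ 0 := TLM_inj C _ hn1z'
  have e1 : C.ι p.n = g * a := by rw [hn₁, map_mul, map_natCast]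
  have e1' : C.ι (star p.n) = g * a' := by rw [hn₁s, map_mul, map_natCast]
  have hn : C.ι p.n ∈ P := by rw [e1]; exact P.mul_mem_right _ hgP
  have hn' : C.ι (star p.n) ∈ P := by rw [e1']; exact P.mul_mem_right _ hgP
  have h5 : (5 : 𝓞 F) ∉ P := by
    intro h
    obtain ⟨b, hb⟩ := hp.n1
    apply one
    have e2 : C.ι p.n - 1 = 25 * C.ι b := by
      have := congrArg C.ι hb
      rw [map_sub, map_one, map_mul, map_ofNat] at this
      exact this
    have e3 : (1 : 𝓞 F) = C.ι p.n - 5 * (5 * C.ι b) := by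
      linear_combination (-1) * e2
    rw [e3]
    exact P.sub_mem hn (P.mul_mem_right _ h)
  have cop : ∀ u v : OO, IsCoprime u v → C.ι v ∈ P → C.ι u ∉ P := by
    intro u v huv hv hu
    obtain ⟨x, y, hxy⟩ := huv
    apply one
    have e2 : (1 : 𝓞 F) = C.ι x * C.ι u + C.ι y * C.ι v := by
      rw [← map_mul, ← map_mul, ← map_add, hxy, map_one]
    rw [e2]
    exact P.add_mem (P.mul_mem_left _ hu) (P.mul_mem_left _ hv)
  have h25 : ∀ u : OO, C.ι u ∉ P → C.ι (25 * u) ∉ P := by
    intro u hu h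
    rw [map_mul, map_ofNat] at h
    rcases hP.mem_or_mem h with h | h
    · have e2 : (25 : 𝓞 F) = 5 * 5 := by norm_num
      rw [e2] at h
      rcases hP.mem_or_mem h with h | h <;> exact h5 h
    · exact hu h
  have hK : C.ι (25 * p.k) ∉ P := h25 _ (cop _ _ hp.kn hn)
  have hK' : C.ι (star (25 * p.k)) ∉ P := by
    have e2 : star (25 * p.k) = 25 * star p.k := by
      rw [star_mul', star_ofNat]
    rw [e2]
    exact h25 _ (cop _ _ (hp.kn.map (starRingEnd OO)) hn')
  set K : 𝓞 F := C.ι (25 * p.k) with hKd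
  set K' : 𝓞 F := C.ι (star (25 * p.k)) with hKd'
  have hph : C.ι ph ∉ P := by
    intro h
    apply one
    rw [← map_one C.ι, ← TLM_ph, map_mul]
    exact P.mul_mem_right _ h
  have hph' : C.ι (star ph) ∉ P := by
    intro h
    apply one
    have e2 : star ph * star (ph - 1) = (1 : OO) := by
      rw [← star_mul', TLM_ph, star_one]
    rw [← map_one C.ι, ← e2, map_mul]
    exact P.mul_mem_right _ h
  set φ : 𝓞 F := C.ι ph with hφ
  set φ' : 𝓞 F := C.ι (star ph) with hφ'
  set M : 𝓞 F := C.ι p.M with hM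
  set M' : 𝓞 F := C.ι (star p.M) with hM'
  have T1 : g * a * M + φ * (g * a') * M' = -(C.ι (2 * p.X) * K') := by
    have := congrArg C.ι t1
    rw [map_add, map_neg, map_mul, map_mul, map_mul, map_mul, e1, e1'] at this
    exact this
  have T1' : g * a' * M' + φ' * (g * a) * M = -(C.ι (2 * star p.X) * K) := by
    have t3 := congrArg star t1
    rw [star_add, star_mul', star_mul', star_mul', star_neg, star_mul', star_star, star_star, star_star, star_mul',
      star_ofNat] at t3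
    have := congrArg C.ι t3
    rw [map_add, map_neg, map_mul, map_mul, map_mul, map_mul, e1, e1'] at this
    linear_combination this
  have T2 : M * M' = g * (-(φ * a' * K ^ 2 + φ' * a * K' ^ 2)) := by
    have := congrArg C.ι t2
    rw [star_mul', star_mul', star_star, star_pow, map_mul, map_neg, map_add, map_mul, map_mul, map_mul, map_mul,
      map_pow, map_pow, e1, e1'] at this
    rw [this]
    ring
  have hx01 : vv P a = 0 ∨ vv P a' = 0 := by
    by_contra hne
    push Not at hne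
    have ma : a ∈ P := iP _ (Nat.pos_of_ne_zero hne.1) a0
    have ma' : a' ∈ P := iP _ (Nat.pos_of_ne_zero hne.2) a0'
    have hd : C.ι ((n₁.im : OO)) * C.ι r5 ∈ P := by
      rw [← map_mul, ← TLM_sub, map_sub]
      exact P.sub_mem ma ma'
    have him : C.ι ((n₁.im : OO)) ∈ P := by
      rcases hP.mem_or_mem hd with h | h
      · exact h
      · exfalso
        apply h5
        have e2 : (5 : 𝓞 F) = C.ι r5 * C.ι r5 := by
          rw [← map_mul, TLM_r5, map_ofNat]
        rw [e2]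
        exact P.mul_mem_right _ h
    have hre : C.ι ((n₁.re : ℤ) : OO) ∈ P := by
      rw [TLM_re, map_sub, map_mul]
      exact P.sub_mem ma (P.mul_mem_right _ him)
    apply one
    have e3 := Int.gcd_eq_gcd_ab n₁.re n₁.im
    rw [hcop] at e3
    rw [map_intCast] at him hre
    have e4 : (1 : 𝓞 F) = (n₁.re : 𝓞 F) * (Int.gcdA n₁.re n₁.im : 𝓞 F) + (n₁.im : 𝓞 F) * (Int.gcdB n₁.re n₁.im : 𝓞 F) := by
      exact_mod_cast congrArg (Int.cast : ℤ → 𝓞 F) e3
    rw [e4]
    exact P.add_mem (P.mul_mem_right _ hre) (P.mul_mem_right _ him)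
  -- the bracket
  have br : 0 < vv P a + vv P a' → -(φ * a' * K ^ 2 + φ' * a * K' ^ 2) ∉ P := by
    intro hpos hmem
    have hmem' : φ * a' * K ^ 2 + φ' * a * K' ^ 2 ∈ P := by
      have := P.neg_mem hmem
      rwa [neg_neg] at this
    rcases hx01 with h | h
    · have ma' : a' ∈ P := iP _ (by omega) a0'
      have na : a ∉ P := by
        intro hh
        have := (v2 a a0).2 hh
        omega
      have e2 : φ' * a * K' ^ 2 ∈ P := by
        have e3 : φ' * a * K' ^ 2 = (φ * a' * K ^ 2 + φ' * a * K' ^ 2) - φ * a' * K ^ 2 := by ring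
        rw [e3]
        exact P.sub_mem hmem' (P.mul_mem_right _ (P.mul_mem_left _ ma'))
      rcases hP.mem_or_mem e2 with h4 | h4
      · rcases hP.mem_or_mem h4 with h4 | h4
        · exact hph' h4
        · exact na h4
      · exact hK' (hP.mem_of_pow_mem 2 h4)
    · have ma : a ∈ P := iP _ (by omega) a0
      have na' : a' ∉ P := by
        intro hh
        have := (v2 a' a0').2 hh
        omega
      have e2 : φ * a' * K ^ 2 ∈ P := by
        have e3 : φ * a' * K ^ 2 = (φ * a' * K ^ 2 + φ' * a * K' ^ 2) - φ' * a * K' ^ 2 := by ring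
        rw [e3]
        exact P.sub_mem hmem' (P.mul_mem_right _ (P.mul_mem_left _ ma))
      rcases hP.mem_or_mem e2 with h4 | h4
      · rcases hP.mem_or_mem h4 with h4 | h4
        · exact hph h4
        · exact na' h4
      · exact hK (hP.mem_of_pow_mem 2 h4)
  have MM : 0 < vv P a + vv P a' → M ≠ 0 ∧ M' ≠ 0 ∧ vv P M + vv P M' = vv P g := by
    intro hpos
    obtain ⟨b0, b1⟩ := nP _ (br hpos)
    have hne : M * M' ≠ 0 := by
      rw [T2]
      exact mul_ne_zero hg1 b0
    have m0 : M ≠ 0 := left_ne_zero_of_mul hne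
    have m0' : M' ≠ 0 := right_ne_zero_of_mul hne
    refine ⟨m0, m0', ?_⟩
    rw [← v1 M M' m0 m0', T2, v1 _ _ hg1 b0, b1, add_zero]
  refine ⟨vv P a, vv P a', vv P M, vv P M', ?_, ?_, hx01, fun h => (MM h).2.2, ?_⟩
  · rw [e1, v1 _ _ hg1 a0]
  · rw [e1', v1 _ _ hg1 a0']
  · intro hpos hne
    obtain ⟨m0, m0', -⟩ := MM hpos
    obtain ⟨f0, f1⟩ := nP _ hph
    obtain ⟨f0', f1'⟩ := nP _ hph'
    have c1 : vv P (g * a * M) = vv P g + (vv P a + vv P M) := by
      rw [v1 _ _ (mul_ne_zero hg1 a0) m0, v1 _ _ hg1 a0, add_assoc]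
    have c2 : vv P (φ * (g * a') * M') = vv P g + (vv P a' + vv P M') := by
      rw [v1 _ _ (mul_ne_zero f0 (mul_ne_zero hg1 a0')) m0', v1 _ _ f0 (mul_ne_zero hg1 a0'), v1 _ _ hg1 a0', f1]
      omega
    have c3 : vv P (g * a' * M') = vv P g + (vv P a' + vv P M') := by
      rw [v1 _ _ (mul_ne_zero hg1 a0') m0', v1 _ _ hg1 a0', add_assoc]
    have c4 : vv P (φ' * (g * a) * M) = vv P g + (vv P a + vv P M) := by
      rw [v1 _ _ (mul_ne_zero f0' (mul_ne_zero hg1 a0)) m0, v1 _ _ f0' (mul_ne_zero hg1 a0), v1 _ _ hg1 a0, f1']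
      omega
    constructor
    · obtain ⟨s0, s1⟩ := v3 (g * a * M) (φ * (g * a') * M') (mul_ne_zero (mul_ne_zero hg1 a0) m0)
        (mul_ne_zero (mul_ne_zero f0 (mul_ne_zero hg1 a0')) m0') (by rw [c1, c2]; omega)
      have e2 : g * a * M + φ * (g * a') * M' = C.ι (2 * p.X) * (-K') := by
        rw [T1]
        ring
      have nk : -K' ∉ P := by
        intro h
        apply hK'
        have := P.neg_mem h
        rwa [neg_neg] at this
      obtain ⟨k0, k1⟩ := nP _ nk
      rw [e2] at s0 s1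
      rw [v1 _ _ (left_ne_zero_of_mul s0) k0, k1, c1, c2] at s1
      omega
    · obtain ⟨s0, s1⟩ := v3 (g * a' * M') (φ' * (g * a) * M) (mul_ne_zero (mul_ne_zero hg1 a0') m0')
        (mul_ne_zero (mul_ne_zero f0' (mul_ne_zero hg1 a0)) m0) (by rw [c3, c4]; omega)
      have e2 : g * a' * M' + φ' * (g * a) * M = C.ι (2 * star p.X) * (-K) := by
        rw [T1']
        ring
      have nk : -K ∉ P := by
        intro h
        apply hK
        have := P.neg_mem h
        rwa [neg_neg] at this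
      obtain ⟨k0, k1⟩ := nP _ nk
      rw [e2] at s0 s1
      rw [v1 _ _ (left_ne_zero_of_mul s0) k0, k1, c3, c4] at s1
      omega

end Pool.Agent.RF
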