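import Pool.Agent.helper88.RF.SpecW

/-!
# Project RF (MP_16912e_nt): row WDB, the number of divisors in a box
-/

set_option autoImplicit false

open Finset

namespace Pool.Agent.RF

/-- the fibres: elements associated to one element `μ₀` -/
lemma WDB_fib (hWVA : WVA_stmt) (C2 : ℝ)
    (hU : ∀ X : ℝ, 1 ≤ X → ∀ S : Finset OO, (∀ u ∈ S, IsUnit u ∧ |va u| ≤ X ∧ |vb u| ≤ X) →
      (S.card : ℝ) ≤ C2 * (1 + Real.log X)) (M : ℝ) (hM : 1 ≤ M) (μ₀ : OO) (h0 : μ₀ ≠ 0) (ha : |va μ₀| ≤ M)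
    (hb : |vb μ₀| ≤ M) (S : Finset OO) (hS : ∀ μ ∈ S, Associated μ₀ μ ∧ |va μ| ≤ M ∧ |vb μ| ≤ M) :
    (S.card : ℝ) ≤ C2 * (1 + Real.log (M * M)) := by
  classical
  obtain ⟨v1, v2, -, -, -, -, v7⟩ := hWVA
  obtain ⟨-, n1, -, -⟩ := v7 μ₀ h0
  have hex : ∀ μ : OO, ∃ u : OO, μ ∈ S → (IsUnit u ∧ μ₀ * u = μ) := by
    intro μ
    by_cases hμ : μ ∈ S
    · obtain ⟨u, hu⟩ := (hS μ hμ).1
      exact ⟨u, fun _ => ⟨u.isUnit, hu⟩⟩
    · exact ⟨0, fun h => absurd h hμ⟩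
  choose h hh using hex
  have hinj : Set.InjOn h (S : Set OO) := by
    intro μ hμ ν hν he
    rw [← (hh μ hμ).2, ← (hh ν hν).2, he]
  have hcard : (S.image h).card = S.card := Finset.card_image_of_injOn hinj
  rw [← hcard]
  refine hU (M * M) (by nlinarith) (S.image h) ?_
  intro u hu
  obtain ⟨μ, hμ, rfl⟩ := Finset.mem_image.mp hu
  obtain ⟨hu1, hu2⟩ := hh μ hμ
  obtain ⟨-, s2, s3⟩ := hS μ hμ
  have e1 : va μ = va μ₀ * va (h μ) := by rw [← v1, hu2]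
  have e2 : vb μ = vb μ₀ * vb (h μ) := by rw [← v2, hu2]
  refine ⟨hu1, ?_, ?_⟩
  · calc |va (h μ)| = 1 * |va (h μ)| := (one_mul _).symm
      _ ≤ (|va μ₀| * |vb μ₀|) * |va (h μ)| := mul_le_mul_of_nonneg_right n1 (abs_nonneg _)
      _ = |va μ| * |vb μ₀| := by rw [e1, abs_mul]; ring
      _ ≤ M * M := mul_le_mul s2 hb (abs_nonneg _) (by linarith)
  · calc |vb (h μ)| = 1 * |vb (h μ)| := (one_mul _).symm
      _ ≤ (|va μ₀| * |vb μ₀|) * |vb (h μ)| := mul_le_mul_of_nonneg_right n1 (abs_nonneg _)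
      _ = |vb μ| * |va μ₀| := by rw [e2, abs_mul]; ring
      _ ≤ M * M := mul_le_mul s3 ha (abs_nonneg _) (by linarith)

/-- the number of classes -/
lemma WDB_cls (m : ℤ) (B : ℝ)
    (hB : ∀ S : Finset OO, (∀ μ ∈ S, μ ∣ (m : OO)) → (∀ μ ∈ S, ∀ ν ∈ S, Associated μ ν → μ = ν) → (S.card : ℝ) ≤ B)
    (D : Finset (Associates OO)) (hD : ∀ a ∈ D, ∃ μ : OO, μ ∣ (m : OO) ∧ Associates.mk μ = a) : (D.card : ℝ) ≤ B := by
  classical
  have hinj : Function.Injective (Quot.out : Associates OO → OO) := by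
    intro a b hab
    have h1 : Associates.mk (Quot.out a) = Associates.mk (Quot.out b) := congrArg Associates.mk hab
    exact (Associates.quot_out a).symm.trans (h1.trans (Associates.quot_out b))
  rw [← Finset.card_image_of_injective D hinj]
  refine hB _ ?_ ?_
  · intro μ hμ
    obtain ⟨a, ha, rfl⟩ := Finset.mem_image.mp hμ
    obtain ⟨ν, hν, rfl⟩ := hD a ha
    exact (Associates.mk_quot_out ν).dvd.trans hν
  · intro μ hμ ν hν hass
    obtain ⟨a, ha, rfl⟩ := Finset.mem_image.mp hμ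
    obtain ⟨b, hb, rfl⟩ := Finset.mem_image.mp hν
    have h1 := Associates.mk_eq_mk_iff_associated.mpr hass
    exact congrArg Quot.out ((Associates.quot_out a).symm.trans (h1.trans (Associates.quot_out b)))

theorem WDB_proof (hWTU : WTU_stmt) (hWUN : WUN_stmt) (hWVA : WVA_stmt) : WDB_stmt := by
  classical
  intro ε j hε
  obtain ⟨C1, hC1, h1⟩ := hWTU (ε / (2 * j + 2)) (by positivity)
  obtain ⟨C2, hC2, h2⟩ := hWUN
  have hj0 : (0 : ℝ) ≤ j := Nat.cast_nonneg j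
  have hk1 : 1 ≤ 1 + 4 * (j : ℝ) / ε := by
    have : 0 ≤ 4 * (j : ℝ) / ε := by positivity
    linarith
  have h12 : 1 ≤ C1 * C2 := by nlinarith
  refine ⟨C1 * C2 * (1 + 4 * j / ε), by nlinarith, ?_⟩
  intro T hT m hm hmT S hS
  have hT1 : (1 : ℝ) ≤ T := by exact_mod_cast hT
  have hT0 : (0 : ℝ) < T := by linarith
  set M : ℝ := (T : ℝ) ^ j with hMdef
  have hM1 : 1 ≤ M := one_le_pow₀ hT1
  have hne : ∀ μ ∈ S, μ ≠ 0 := by
    intro μ hμ h0
    have h3 := (hS μ hμ).1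
    rw [h0, zero_dvd_iff] at h3
    have h4 := (hWVA.2.2.2.1 m).1
    have h5 := (hWVA.2.2.2.1 0).1
    rw [h3] at h4
    rw [Int.cast_zero, Int.cast_zero] at h5
    rw [h5] at h4
    exact hm (by exact_mod_cast h4.symm)
  set D : Finset (Associates OO) := S.image Associates.mk with hD
  have hcls : (D.card : ℝ) ≤ C1 * (m.natAbs : ℝ) ^ (ε / (2 * j + 2)) := by
    refine WDB_cls m _ (h1 m hm) D fun a ha => ?_
    obtain ⟨μ, hμ, rfl⟩ := Finset.mem_image.mp ha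
    exact ⟨μ, (hS μ hμ).1, rfl⟩
  have hfib : ∀ a ∈ D, ((S.filter fun μ => Associates.mk μ = a).card : ℝ) ≤ C2 * (1 + Real.log (M * M)) := by
    intro a ha
    obtain ⟨μ₀, hμ₀, rfl⟩ := Finset.mem_image.mp ha
    refine WDB_fib hWVA C2 h2 M hM1 μ₀ (hne μ₀ hμ₀) (hS μ₀ hμ₀).2.1 (hS μ₀ hμ₀).2.2 _ fun μ hμ => ?_
    obtain ⟨hμS, hμe⟩ := Finset.mem_filter.mp hμ
    exact ⟨(Associates.mk_eq_mk_iff_associated.mp hμe).symm, (hS μ hμS).2.1, (hS μ hμS).2.2⟩
  have hsum : (S.card : ℝ) = ∑ a ∈ D, ((S.filter fun μ => Associates.mk μ = a).card : ℝ) := by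
    have h3 := Finset.card_eq_sum_card_image (Associates.mk : OO → Associates OO) S
    rw [h3]
    push_cast
    rfl
  have hcount : (S.card : ℝ) ≤ (D.card : ℝ) * (C2 * (1 + Real.log (M * M))) := by
    rw [hsum]
    calc ∑ a ∈ D, ((S.filter fun μ => Associates.mk μ = a).card : ℝ) ≤ ∑ _a ∈ D, C2 * (1 + Real.log (M * M)) :=
          Finset.sum_le_sum hfib
      _ = (D.card : ℝ) * (C2 * (1 + Real.log (M * M))) := by rw [Finset.sum_const, nsmul_eq_mul]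
  -- sizes
  have hlog : Real.log (M * M) = 2 * j * Real.log T := by
    rw [Real.log_mul (by positivity) (by positivity), hMdef, Real.log_pow]
    ring
  have hlogT : Real.log T ≤ (T : ℝ) ^ (ε / 2) / (ε / 2) := Real.log_le_rpow_div hT0.le (by positivity)
  have hTe : 1 ≤ (T : ℝ) ^ (ε / 2) := Real.one_le_rpow hT1 (by positivity)
  have hlog2 : 1 + Real.log (M * M) ≤ (1 + 4 * j / ε) * (T : ℝ) ^ (ε / 2) := by
    rw [hlog]
    have h3 : 2 * (j : ℝ) * Real.log T ≤ 2 * j * ((T : ℝ) ^ (ε / 2) / (ε / 2)) :=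
      mul_le_mul_of_nonneg_left hlogT (by positivity)
    have h4 : 2 * (j : ℝ) * ((T : ℝ) ^ (ε / 2) / (ε / 2)) = 4 * j / ε * (T : ℝ) ^ (ε / 2) := by
      field_simp
      ring
    rw [h4] at h3
    linarith
  have hmn : (m.natAbs : ℝ) ^ (ε / (2 * j + 2)) ≤ (T : ℝ) ^ (ε / 2) := by
    have h3 : (m.natAbs : ℝ) ≤ M := by
      rw [Nat.cast_natAbs, Int.cast_abs]
      exact hmT
    calc (m.natAbs : ℝ) ^ (ε / (2 * j + 2)) ≤ M ^ (ε / (2 * j + 2)) :=
          Real.rpow_le_rpow (Nat.cast_nonneg _) h3 (by positivity)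
      _ = (T : ℝ) ^ (j * (ε / (2 * j + 2))) := by
          rw [hMdef, ← Real.rpow_natCast, ← Real.rpow_mul hT0.le]
      _ ≤ (T : ℝ) ^ (ε / 2) := by
          refine Real.rpow_le_rpow_of_exponent_le hT1 ?_
          rw [mul_div_assoc', div_le_div_iff₀ (by positivity) (by norm_num)]
          nlinarith
  have hlog0 : 0 ≤ 1 + Real.log (M * M) := by
    have : 0 ≤ Real.log (M * M) := Real.log_nonneg (by nlinarith)
    linarith
  calc (S.card : ℝ) ≤ (D.card : ℝ) * (C2 * (1 + Real.log (M * M))) := hcount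
    _ ≤ (C1 * (T : ℝ) ^ (ε / 2)) * (C2 * ((1 + 4 * j / ε) * (T : ℝ) ^ (ε / 2))) := by
        refine mul_le_mul (hcls.trans (mul_le_mul_of_nonneg_left hmn (by linarith)))
          (mul_le_mul_of_nonneg_left hlog2 (by linarith)) (by positivity) (by positivity)
    _ = C1 * C2 * (1 + 4 * j / ε) * ((T : ℝ) ^ (ε / 2) * (T : ℝ) ^ (ε / 2)) := by ring
    _ = C1 * C2 * (1 + 4 * j / ε) * (T : ℝ) ^ ε := by
        rw [← Real.rpow_add hT0, add_halves]

end Pool.Agent.RF
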